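import Mathlib

/-!
First-Fit on chordal graphs: for every `k ≥ 2` and every `n ≥ k ^ 2` there is a chordal graph with
clique number `k` and `n` vertices on which First-Fit uses at least `k * log n / 6` colours for
some ordering of the vertices.
-/

set_option autoImplicit false

namespace Pool.Agent.Results.MP_4aa424_co.ChordalFirstFit

open SimpleGraph

/-- A graph is chordal if every cycle of length at least four has a chord: an edge of the graph
joining two vertices of the cycle which is not an edge of the cycle. -/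
def IsChordal {V : Type} (G : SimpleGraph V) : Prop :=
  ∀ (v : V) (c : G.Walk v v), c.IsCycle → 4 ≤ c.length → ∃ e, c.IsChord e

/-- The colour First-Fit gives to the `s`-th vertex of the ordering `π 0, π 1, ...`: the least
positive integer not used on an earlier neighbour. -/
noncomputable def ffColour {V : Type} {n : ℕ} (G : SimpleGraph V) (π : Fin n ≃ V) (s : Fin n) : ℕ :=
  sInf {a : ℕ | 1 ≤ a ∧ ∀ (r : Fin n), (h : r < s) → G.Adj (π r) (π s) → ffColour G π r ≠ a}
termination_by s

/-- The First-Fit chromatic number: the largest number of colours First-Fit uses, over all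
orderings of the vertices. -/
noncomputable def chiFF {V : Type} [Fintype V] (G : SimpleGraph V) : ℕ :=
  ⨆ π : Fin (Fintype.card V) ≃ V, (Finset.univ.image (ffColour G π)).card

/-! ### Walls -/

section wall

variable {V : Type} (G : SimpleGraph V)

/-- If the vertices are ordered by a wall label, First-Fit reproduces the labels. -/
lemma ff_eq_label {n : ℕ} (π : Fin n ≃ V) (l : V → ℕ) (hpos : ∀ v, 1 ≤ l v)
    (hprop : ∀ v w, G.Adj v w → l v ≠ l w)
    (hwall : ∀ v j, 1 ≤ j → j < l v → ∃ w, G.Adj w v ∧ l w = j)
    (hmono : ∀ r s : Fin n, r ≤ s → l (π r) ≤ l (π s)) (s : Fin n) :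
    ffColour G π s = l (π s) := by
  induction s using WellFoundedLT.induction with
  | _ s ih =>
    have hset : {a : ℕ | 1 ≤ a ∧ ∀ (r : Fin n), (h : r < s) → G.Adj (π r) (π s) →
        ffColour G π r ≠ a} =
        {a : ℕ | 1 ≤ a ∧ ∀ (r : Fin n), (h : r < s) → G.Adj (π r) (π s) → l (π r) ≠ a} := by
      ext a
      constructor
      · rintro ⟨h1, h2⟩
        exact ⟨h1, fun r hr hadj => ih r hr ▸ h2 r hr hadj⟩
      · rintro ⟨h1, h2⟩
        exact ⟨h1, fun r hr hadj => (ih r hr).symm ▸ h2 r hr hadj⟩
    rw [ffColour, hset]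
    apply le_antisymm
    · apply Nat.sInf_le
      exact ⟨hpos _, fun r hr hadj => hprop _ _ hadj⟩
    · apply le_csInf
      · exact ⟨l (π s), hpos _, fun r hr hadj => hprop _ _ hadj⟩
      · rintro a ⟨h1, h2⟩
        by_contra hlt
        push Not at hlt
        obtain ⟨w, hw1, hw2⟩ := hwall (π s) a h1 hlt
        have hr : π.symm w < s := by
          by_contra hge
          push Not at hge
          have := hmono s (π.symm w) hge
          rw [Equiv.apply_symm_apply] at this
          omega
        exact h2 (π.symm w) hr (by rwa [Equiv.apply_symm_apply]) (by rwa [Equiv.apply_symm_apply])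

/-- A wall whose top level is `t` gives First-Fit chromatic number at least `t`. -/
lemma le_chiFF [Fintype V] (l : V → ℕ) (hpos : ∀ v, 1 ≤ l v)
    (hprop : ∀ v w, G.Adj v w → l v ≠ l w)
    (hwall : ∀ v j, 1 ≤ j → j < l v → ∃ w, G.Adj w v ∧ l w = j) (v : V) : l v ≤ chiFF G := by
  classical
  set e : Fin (Fintype.card V) ≃ V := (Fintype.equivFin V).symm
  set τ := Tuple.sort (fun i => l (e i))
  set π : Fin (Fintype.card V) ≃ V := τ.trans e
  have hmono : ∀ r s : Fin (Fintype.card V), r ≤ s → l (π r) ≤ l (π s) := by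
    intro r s hrs
    exact Tuple.monotone_sort (fun i => l (e i)) hrs
  have hff := ff_eq_label G π l hpos hprop hwall hmono
  have h1 : (Finset.univ.image (ffColour G π)).card ≤ chiFF G :=
    le_ciSup (f := fun π : Fin (Fintype.card V) ≃ V => (Finset.univ.image (ffColour G π)).card)
      (Set.finite_range _).bddAbove π
  refine le_trans ?_ h1
  have h2 : Finset.Icc 1 (l v) ⊆ Finset.univ.image (ffColour G π) := by
    intro j hj
    rw [Finset.mem_Icc] at hj
    obtain ⟨w, hw⟩ : ∃ w, l w = j := by
      rcases Nat.lt_or_ge j (l v) with h | h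
      · obtain ⟨w, _, hw⟩ := hwall v j hj.1 h
        exact ⟨w, hw⟩
      · exact ⟨v, by omega⟩
    rw [Finset.mem_image]
    exact ⟨π.symm w, Finset.mem_univ _, by rw [hff, Equiv.apply_symm_apply, hw]⟩
  have := Finset.card_le_card h2
  simpa using this

end wall

/-! ### Chordality from an elimination rank -/

lemma chordal_of_rank {V : Type} (G : SimpleGraph V) (rk : V → ℕ)
    (hinj : ∀ v w, G.Adj v w → rk v ≠ rk w)
    (hcl : ∀ v a b, G.Adj v a → G.Adj v b → rk a < rk v → rk b < rk v → a ≠ b → G.Adj a b) :
    IsChordal G := by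
  classical
  intro v₀ c₀ hc₀ hlen₀
  -- a vertex of maximal rank on the cycle
  obtain ⟨v, hv, hmax⟩ : ∃ v ∈ c₀.support, ∀ w ∈ c₀.support, rk w ≤ rk v := by
    obtain ⟨v, hv, h⟩ := Finset.exists_max_image c₀.support.toFinset rk
      ⟨v₀, by simp⟩
    exact ⟨v, by simpa using hv, fun w hw => h w (by simpa using hw)⟩
  set c := c₀.rotate v hv with hcdef
  have hc : c.IsCycle := hc₀.rotate hv
  have hlen : c.length = c₀.length := by
    rw [hcdef, Walk.length_rotate]
  have hsup : ∀ w, w ∈ c.support → w ∈ c₀.support := by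
    intro w hw
    rwa [hcdef, Walk.mem_support_rotate_iff] at hw
  have hedge : ∀ e, e ∈ c₀.edges → e ∈ c.edges := by
    intro e he
    exact (c₀.rotate_edges v hv).mem_iff.2 he
  have hnn : ¬ c.Nil := hc.not_nil
  set a := c.snd with ha
  set b := c.penultimate with hb
  have hva : G.Adj v a := c.adj_snd hnn
  have hbv : G.Adj b v := c.adj_penultimate hnn
  have ha_mem : a ∈ c.support := c.getVert_mem_support 1
  have hb_mem : b ∈ c.support := c.getVert_mem_support _
  have hinjOn := hc.getVert_injOn
  have hL : 4 ≤ c.length := by omega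
  have hab : a ≠ b := by
    intro h
    have h1 : (1 : ℕ) ∈ {i | 1 ≤ i ∧ i ≤ c.length} := ⟨le_refl _, by omega⟩
    have h2 : (c.length - 1 : ℕ) ∈ {i | 1 ≤ i ∧ i ≤ c.length} := ⟨by omega, by omega⟩
    have := hinjOn h1 h2 (by exact h)
    omega
  have hra : rk a < rk v := lt_of_le_of_ne (hmax a (hsup a ha_mem)) (hinj _ _ hva.symm)
  have hrb : rk b < rk v := lt_of_le_of_ne (hmax b (hsup b hb_mem)) (hinj _ _ hbv)
  refine ⟨s(a, b), ?_⟩
  rw [Walk.isChord_sym2Mk]
  refine ⟨hcl v a b hva hbv.symm hra hrb hab, ?_, hsup a ha_mem, hsup b hb_mem⟩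
  intro hmem
  have hmem' := hedge _ hmem
  obtain ⟨i, hi, he'⟩ := (Walk.mk_mem_edges_iff_exists c).1 hmem'
  have hinj' : ∀ x y, 1 ≤ x → x ≤ c.length → 1 ≤ y → y ≤ c.length →
      c.getVert x = c.getVert y → x = y := fun x y h1 h2 h3 h4 h5 =>
    hinjOn (x₁ := x) (x₂ := y) ⟨h1, h2⟩ ⟨h3, h4⟩ h5
  have h0 : c.getVert 0 = c.getVert c.length := by simp
  have ea : a = c.getVert 1 := rfl
  have eb : b = c.getVert (c.length - 1) := rfl
  rw [Sym2.eq_iff] at he'
  rcases he' with ⟨h1, h2⟩ | ⟨h1, h2⟩
  · rw [eb] at h2
    have k2 := hinj' _ _ (by omega) (by omega) (by omega) (by omega) h2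
    rw [ea] at h1
    have k1 := hinj' _ _ (by omega) (by omega) (by omega) (by omega) h1
    omega
  · rw [ea] at h2
    have k2 := hinj' _ _ (by omega) (by omega) (by omega) (by omega) h2
    have : i = 0 := by omega
    subst this
    rw [h0, eb] at h1
    have k1 := hinj' _ _ (by omega) (by omega) (by omega) (by omega) h1
    omega

/-! ### The graph: blow-up of a binomial tree, a complete graph and isolated vertices -/

section graph

/-- `A` is a child of `B` in the binomial tree on the finite subsets of `Fin s`. -/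
def Child {s : ℕ} (A B : Finset (Fin s)) : Prop := ∃ a, (∀ b ∈ B, a < b) ∧ A = insert a B

lemma Child.card {s : ℕ} {A B : Finset (Fin s)} (h : Child A B) : A.card = B.card + 1 := by
  obtain ⟨a, ha, rfl⟩ := h
  rw [Finset.card_insert_of_notMem]
  intro hmem
  exact lt_irrefl _ (ha a hmem)

lemma Child.unique {s : ℕ} {A B B' : Finset (Fin s)} (h : Child A B) (h' : Child A B') :
    B = B' := by
  obtain ⟨a, ha, rfl⟩ := h
  obtain ⟨a', ha', he⟩ := h'
  have hna : a ∉ B := fun hm => lt_irrefl _ (ha a hm)
  have hna' : a' ∉ B' := fun hm => lt_irrefl _ (ha' a' hm)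
  have haa : a = a' := by
    have h1 : a ∈ insert a' B' := he ▸ Finset.mem_insert_self a B
    have h2 : a' ∈ insert a B := he.symm ▸ Finset.mem_insert_self a' B'
    rcases Finset.mem_insert.1 h1 with h | h
    · exact h
    · rcases Finset.mem_insert.1 h2 with h' | h'
      · exact h'.symm
      · exact absurd (lt_trans (ha _ h') (ha' _ h)) (lt_irrefl _)
  subst haa
  rw [← Finset.erase_insert hna, he, Finset.erase_insert hna']

/-- the label of a node of the binomial tree: its minimum, or `s` for the root -/
def lab {s : ℕ} (A : Finset (Fin s)) : ℕ := if h : A.Nonempty then (A.min' h : ℕ) else s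

lemma lab_insert {s : ℕ} {a : Fin s} {B : Finset (Fin s)} (h : ∀ b ∈ B, a < b) :
    lab (insert a B) = a := by
  unfold lab
  rw [dif_pos (Finset.insert_nonempty a B)]
  congr 1
  apply le_antisymm
  · exact Finset.min'_le _ _ (Finset.mem_insert_self a B)
  · apply Finset.le_min'
    intro y hy
    rcases Finset.mem_insert.1 hy with h' | h'
    · exact h'.ge
    · exact (h y h').le

lemma lt_lab {s : ℕ} {a : Fin s} {B : Finset (Fin s)} (h : ∀ b ∈ B, a < b) : (a : ℕ) < lab B := by
  unfold lab
  split_ifs with hB
  · exact h _ (Finset.min'_mem B hB)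
  · exact a.2

lemma lt_of_lt_lab {s : ℕ} {a : Fin s} {B : Finset (Fin s)} (h : (a : ℕ) < lab B) :
    ∀ b ∈ B, a < b := by
  intro b hb
  unfold lab at h
  rw [dif_pos ⟨b, hb⟩] at h
  exact lt_of_lt_of_le (show a < B.min' ⟨b, hb⟩ from h) (Finset.min'_le _ _ hb)

lemma lab_le {s : ℕ} (A : Finset (Fin s)) : lab A ≤ s := by
  unfold lab
  split_ifs with h
  · exact (A.min' h).2.le
  · exact le_rfl

/-- The vertices: the blow-up of the binomial tree, the complete graph, the isolated vertices. -/
abbrev Vtx (s m k e : ℕ) : Type := (Finset (Fin s) × Fin m) ⊕ (Fin k ⊕ Fin e)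

/-- The graph: in the blow-up of the binomial tree two different vertices are adjacent if their
nodes are equal or adjacent in the tree. -/
def gr (s m k e : ℕ) : SimpleGraph (Vtx s m k e) where
  Adj := fun x y => match x, y with
    | Sum.inl (A, i), Sum.inl (B, j) => (A = B ∧ i ≠ j) ∨ Child A B ∨ Child B A
    | Sum.inr (Sum.inl i), Sum.inr (Sum.inl j) => i ≠ j
    | _, _ => False
  symm := ⟨by
    rintro (⟨A, i⟩ | i | i) (⟨B, j⟩ | j | j) h <;> simp only at h ⊢
    · rcases h with ⟨h1, h2⟩ | h | h
      · exact Or.inl ⟨h1.symm, h2.symm⟩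
      · exact Or.inr (Or.inr h)
      · exact Or.inr (Or.inl h)
    · exact h.symm⟩
  loopless := ⟨by
    rintro (⟨A, i⟩ | i | i) h <;> simp only at h
    · rcases h with ⟨h1, h2⟩ | h | h
      · exact h2 rfl
      · have := h.card; omega
      · have := h.card; omega
    · exact h rfl⟩

variable {s m k e : ℕ}

def rk : Vtx s m k e → ℕ
  | Sum.inl (A, i) => A.card * m + i
  | Sum.inr (Sum.inl i) => i
  | Sum.inr (Sum.inr _) => 0

lemma rk_child {A B : Finset (Fin s)} (h : Child A B) (i j : Fin m) :
    B.card * m + (j : ℕ) < A.card * m + (i : ℕ) := by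
  rw [h.card]
  have := j.2
  nlinarith

lemma gr_chordal : IsChordal (gr s m k e) := by
  apply chordal_of_rank _ rk
  · rintro (⟨A, i⟩ | i | i) (⟨B, j⟩ | j | j) h <;> simp only [gr, rk] at h ⊢
    · rcases h with ⟨rfl, h2⟩ | h | h
      · have : (i : ℕ) ≠ j := fun h => h2 (Fin.ext h)
        omega
      · have := rk_child h i j; omega
      · have := rk_child h j i; omega
    · exact fun h' => h (Fin.ext h')
  · rintro (⟨A, i⟩ | i | i) (⟨B, j⟩ | j | j) (⟨C, l⟩ | l | l) h1 h2 h3 h4 h5 <;>
      simp only [gr, rk] at h1 h2 h3 h4 h5 ⊢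
    · have key : ∀ (B : Finset (Fin s)) (j : Fin m), ((A = B ∧ i ≠ j) ∨ Child A B ∨ Child B A) →
          B.card * m + (j : ℕ) < A.card * m + (i : ℕ) → A = B ∨ Child A B := by
        intro B j hB hlt
        rcases hB with ⟨h, _⟩ | h | h
        · exact Or.inl h
        · exact Or.inr h
        · exact absurd (rk_child h j i) (by omega)
      rcases key B j h1 h3 with hB | hB <;> rcases key C l h2 h4 with hC | hC
      · subst hB; subst hC
        left
        exact ⟨rfl, fun h => h5 (by rw [h])⟩
      · subst hB
        exact Or.inr (Or.inl hC)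
      · subst hC
        exact Or.inr (Or.inr hB)
      · have := hB.unique hC
        subst this
        left
        exact ⟨rfl, fun h => h5 (by rw [h])⟩
    · exact fun h => h5 (by rw [h])

/-- a proper colouring with `k` colours when `2 * m ≤ k` -/
lemma gr_colorable (hm : 2 * m ≤ k) (hk : 1 ≤ k) : (gr s m k e).Colorable k := by
  have : NeZero k := ⟨by omega⟩
  refine ⟨Coloring.mk (fun x => match x with
    | Sum.inl (A, i) => (⟨A.card % 2 * m + i, by
        have := i.2
        have : A.card % 2 < 2 := Nat.mod_lt _ (by norm_num)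
        nlinarith⟩ : Fin k)
    | Sum.inr (Sum.inl i) => i
    | Sum.inr (Sum.inr _) => ⟨0, by omega⟩) ?_⟩
  rintro (⟨A, i⟩ | i | i) (⟨B, j⟩ | j | j) h <;> simp only [gr] at h ⊢
  · rw [Ne, Fin.mk.injEq]
    have hi := i.2
    have hj := j.2
    have key : ∀ {A B : Finset (Fin s)} (i j : Fin m), Child A B →
        A.card % 2 * m + (i : ℕ) ≠ B.card % 2 * m + (j : ℕ) := by
      intro A B i j h
      have hi := i.2
      have hj := j.2
      rw [h.card]
      rcases Nat.mod_two_eq_zero_or_one B.card with h0 | h0
      · rw [h0, show (B.card + 1) % 2 = 1 by omega]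
        omega
      · rw [h0, show (B.card + 1) % 2 = 0 by omega]
        omega
    rcases h with ⟨rfl, h2⟩ | h | h
    · have : (i : ℕ) ≠ j := fun h => h2 (Fin.ext h)
      omega
    · exact key i j h
    · exact (key j i h).symm
  · exact h

lemma gr_cliqueNum (hm : 2 * m ≤ k) (hk : 1 ≤ k) : (gr s m k e).cliqueNum = k := by
  classical
  apply le_antisymm
  · obtain ⟨t, ht⟩ := (gr s m k e).exists_isNClique_cliqueNum
    rw [← ht.card_eq]
    exact ht.isClique.card_le_of_colorable (gr_colorable hm hk)
  · have hcl : (gr s m k e).IsClique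
        ((Finset.univ.image (fun i : Fin k => (Sum.inr (Sum.inl i) : Vtx s m k e)) :
          Finset (Vtx s m k e)) : Set (Vtx s m k e)) := by
      intro x hx y hy hxy
      simp only [Finset.coe_image, Finset.coe_univ, Set.image_univ, Set.mem_range] at hx hy
      obtain ⟨i, rfl⟩ := hx
      obtain ⟨j, rfl⟩ := hy
      show i ≠ j
      rintro rfl
      exact hxy rfl
    have := IsClique.card_le_cliqueNum (tc := hcl)
    rwa [Finset.card_image_of_injective _ (fun i j h => by simpa using h), Finset.card_univ,
      Fintype.card_fin] at this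

/-- the wall -/
def wl : Vtx s m k e → ℕ
  | Sum.inl (A, i) => lab A * m + i + 1
  | Sum.inr (Sum.inl i) => i + 1
  | Sum.inr (Sum.inr _) => 1

lemma gr_chiFF (hm : 1 ≤ m) : (s + 1) * m ≤ chiFF (gr s m k e) := by
  have h := le_chiFF (gr s m k e) wl ?_ ?_ ?_
    (Sum.inl (∅, (⟨m - 1, by omega⟩ : Fin m)))
  · have h0 : lab (∅ : Finset (Fin s)) = s := by simp [lab]
    simp only [wl, h0] at h
    have e1 : s * m + (m - 1) + 1 = (s + 1) * m := by
      rw [Nat.add_assoc, Nat.sub_add_cancel hm]; ring
    omega
  · rintro (⟨A, i⟩ | i | i) <;> simp [wl]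
  · have key : ∀ {A B : Finset (Fin s)} (i j : Fin m), Child A B →
        lab A * m + (i : ℕ) + 1 ≠ lab B * m + (j : ℕ) + 1 := by
      intro A B i j h
      obtain ⟨a, ha, rfl⟩ := h
      rw [lab_insert ha]
      have h1 := lt_lab ha
      have hi := i.2
      nlinarith
    rintro (⟨A, i⟩ | i | i) (⟨B, j⟩ | j | j) h <;> simp only [gr, wl] at h ⊢
    · rcases h with ⟨rfl, h2⟩ | h | h
      · have : (i : ℕ) ≠ j := fun h => h2 (Fin.ext h)
        omega
      · exact key i j h
      · exact (key j i h).symm
    · have : (i : ℕ) ≠ j := fun h' => h (Fin.ext h')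
      omega
  · rintro (⟨A, i⟩ | i | i) j hj hlt <;> simp only [wl] at hlt
    · have hmod : (j - 1) % m < m := Nat.mod_lt _ (by omega)
      have hdiv := Nat.div_add_mod (j - 1) m
      have hi := i.2
      have hq : (j - 1) / m ≤ lab A := by
        by_contra hcon
        push Not at hcon
        have h1 := Nat.mul_le_mul_left m (show lab A + 1 ≤ (j - 1) / m from hcon)
        have h2 : m * (lab A + 1) = lab A * m + m := by ring
        omega
      rcases Nat.eq_or_lt_of_le hq with hq | hq
      · refine ⟨Sum.inl (A, ⟨(j - 1) % m, hmod⟩), ?_, ?_⟩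
        · simp only [gr]
          left
          refine ⟨trivial, ?_⟩
          rintro rfl
          simp only at hlt
          rw [hq] at hdiv
          have e1 : m * lab A = lab A * m := Nat.mul_comm _ _
          omega
        · simp only [wl]
          rw [← hq]
          have e1 : m * ((j - 1) / m) = (j - 1) / m * m := Nat.mul_comm _ _
          omega
      · have hs : (j - 1) / m < s := lt_of_lt_of_le hq (lab_le A)
        have hlt' : ∀ b ∈ A, (⟨(j - 1) / m, hs⟩ : Fin s) < b := lt_of_lt_lab hq
        refine ⟨Sum.inl (insert ⟨(j - 1) / m, hs⟩ A, ⟨(j - 1) % m, hmod⟩), ?_, ?_⟩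
        · simp only [gr]
          right; left
          exact ⟨_, hlt', rfl⟩
        · simp only [wl, lab_insert hlt']
          have e1 : m * ((j - 1) / m) = (j - 1) / m * m := Nat.mul_comm _ _
          omega
    · have hi := i.2
      refine ⟨Sum.inr (Sum.inl ⟨j - 1, by omega⟩), ?_, ?_⟩
      · simp only [gr]
        intro h
        rw [← h] at hlt
        simp only at hlt
        omega
      · simp only [wl]
        omega
    · omega

end graph

/-- **First-Fit on chordal graphs.** For every `k ≥ 2` and every `n ≥ k ^ 2` there is a chordal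
graph with clique number `k` and exactly `n` vertices whose First-Fit chromatic number is at least
`(1 / 6) * k * log n`. (For `k = 1` there is no edge and First-Fit uses one colour.) -/
theorem result :
    (∀ k : ℕ, 2 ≤ k → ∀ n : ℕ, k ^ 2 ≤ n →
      ∃ (V : Type) (_ : Fintype V) (G : SimpleGraph V), Fintype.card V = n ∧ IsChordal G ∧
        G.cliqueNum = k ∧ (1 / 6 : ℝ) * k * Real.log n ≤ chiFF G) ∧
    (∀ (V : Type) [Fintype V] (G : SimpleGraph V), G.cliqueNum = 1 → chiFF G = 1) := by
  constructor
  · intro k hk n hn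
    obtain ⟨m, hm1, hm2, hm3⟩ : ∃ m, 1 ≤ m ∧ 2 * m ≤ k ∧ k ≤ 3 * m :=
      ⟨k / 2, by omega, by omega, by omega⟩
    have hkn : 2 * k ≤ n := by nlinarith
    obtain ⟨s, hs⟩ : ∃ s, s = Nat.log 2 ((n - k) / m) := ⟨_, rfl⟩
    have hq : (n - k) / m ≠ 0 := by
      rw [Ne, Nat.div_eq_zero_iff]
      omega
    have hlow : 2 ^ s * m ≤ n - k := by
      have h1 : 2 ^ s ≤ (n - k) / m := by rw [hs]; exact Nat.pow_log_le_self 2 hq
      exact (Nat.le_div_iff_mul_le (by omega)).1 h1
    have hhigh : n - k < 2 ^ (s + 1) * m := by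
      have h1 : (n - k) / m < 2 ^ (s + 1) := by
        rw [hs]; exact Nat.lt_pow_succ_log_self (by norm_num) _
      exact (Nat.div_lt_iff_lt_mul (by omega)).1 h1
    refine ⟨Vtx s m k (n - k - 2 ^ s * m), inferInstance, gr s m k (n - k - 2 ^ s * m), ?_,
      gr_chordal, gr_cliqueNum hm2 (by omega), ?_⟩
    · simp only [Fintype.card_sum, Fintype.card_prod, Fintype.card_finset, Fintype.card_fin]
      omega
    · have hchi := gr_chiFF (s := s) (m := m) (k := k) (e := n - k - 2 ^ s * m) hm1
      obtain ⟨y, hy⟩ : ∃ y, y = 2 ^ (s + 1) := ⟨_, rfl⟩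
      have hy2 : 2 ≤ y := by
        rw [hy, pow_succ]
        have := Nat.one_le_two_pow (n := s)
        omega
      have hny : n < y ^ 2 := by
        by_contra hcon
        push Not at hcon
        rw [← hy] at hhigh
        have h1 : n < y * m + k := by omega
        have h2 : 2 * n < 2 * (y * k) := by nlinarith
        have h3 : n < y * k := by omega
        have h4 : n * n < (y * k) * (y * k) := Nat.mul_self_lt_mul_self h3
        have h5 : (y * k) * (y * k) ≤ n * n := by
          calc (y * k) * (y * k) = y ^ 2 * k ^ 2 := by ring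
            _ ≤ n * n := Nat.mul_le_mul hcon hn
        omega
      have hn0 : (0 : ℝ) < n := by
        have : 0 < n := by omega
        exact_mod_cast this
      have hlog : Real.log n ≤ 2 * (s + 1) * Real.log 2 := by
        have h1 : Real.log n ≤ Real.log ((y : ℝ) ^ 2) := by
          apply Real.log_le_log hn0
          exact_mod_cast hny.le
        rw [Real.log_pow, hy] at h1
        push_cast at h1
        rw [Real.log_pow] at h1
        push_cast at h1
        linarith
      have hl2 : Real.log 2 < 1 := by
        have := Real.log_two_lt_d9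
        linarith
      have hl0 : 0 ≤ Real.log n := Real.log_natCast_nonneg n
      have hk3 : (k : ℝ) ≤ 3 * m := by exact_mod_cast hm3
      have hm0 : (0 : ℝ) ≤ m := Nat.cast_nonneg m
      have hs0 : (0 : ℝ) ≤ s := Nat.cast_nonneg s
      have hc : ((s : ℝ) + 1) * m ≤ chiFF (gr s m k (n - k - 2 ^ s * m)) := by
        exact_mod_cast hchi
      refine le_trans ?_ hc
      calc (1 / 6 : ℝ) * k * Real.log n ≤ (1 / 6 : ℝ) * (3 * m) * Real.log n := by
            apply mul_le_mul_of_nonneg_right _ hl0
            linarith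
        _ ≤ (1 / 6 : ℝ) * (3 * m) * (2 * (s + 1) * 1) := by
            apply mul_le_mul_of_nonneg_left _ (by positivity)
            refine hlog.trans ?_
            apply mul_le_mul_of_nonneg_left hl2.le (by positivity)
        _ = ((s : ℝ) + 1) * m := by ring
  · intro V _ G hG
    classical
    have hadj : ∀ x y, ¬ G.Adj x y := by
      intro x y h
      have hcl : G.IsClique (({x, y} : Finset V) : Set V) := by
        simp only [Finset.coe_insert, Finset.coe_singleton]
        rw [SimpleGraph.isClique_pair]
        exact fun _ => h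
      have := IsClique.card_le_cliqueNum (tc := hcl)
      rw [Finset.card_pair h.ne, hG] at this
      omega
    have hne : Nonempty V := by
      obtain ⟨t, ht⟩ := G.exists_isNClique_cliqueNum
      have h1 := ht.card_eq
      rw [hG] at h1
      obtain ⟨x, _⟩ := Finset.card_eq_one.1 h1
      exact ⟨x⟩
    have hff : ∀ (π : Fin (Fintype.card V) ≃ V) s, ffColour G π s = 1 := by
      intro π s
      rw [ffColour]
      apply le_antisymm
      · apply Nat.sInf_le
        exact ⟨le_rfl, fun r hr h => absurd h (hadj _ _)⟩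
      · apply le_csInf
        · exact ⟨1, le_rfl, fun r hr h => absurd h (hadj _ _)⟩
        · exact fun a ha => ha.1
    have hcard : ∀ π : Fin (Fintype.card V) ≃ V, (Finset.univ.image (ffColour G π)).card = 1 := by
      intro π
      have h1 : Finset.univ.image (ffColour G π) = {1} := by
        ext a
        rw [Finset.mem_image, Finset.mem_singleton]
        constructor
        · rintro ⟨s, _, rfl⟩
          exact hff π s
        · rintro rfl
          exact ⟨⟨0, Fintype.card_pos⟩, Finset.mem_univ _, hff π _⟩
      rw [h1, Finset.card_singleton]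
    unfold chiFF
    have : Nonempty (Fin (Fintype.card V) ≃ V) := ⟨(Fintype.equivFin V).symm⟩
    simp only [hcard, ciSup_const]

end Pool.Agent.Results.MP_4aa424_co.ChordalFirstFit
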